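import Pool.Agent.helper54.HC.TDefs

/-!
# Density theorem (project DT): definitions

`A = W ⧸ Lam` a polarised complex torus (a complex abelian variety). The Hodge group of `A` (its real points)
is the group of real linear automorphisms of `W` which fix the polarization and all rational Hodge
classes, of all degrees, on all powers of `A`.
-/

namespace Pool.Agent.HC.DT

open Pool.Agent.HC

noncomputable section

variable {W : Type} [NormedAddCommGroup W] [NormedSpace ℂ W]

/-- `ψ` is a Riemann form (polarization) of the complex torus `W ⧸ Lam`. A complex torus is an abelian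
variety iff it has a Riemann form. -/
structure IsPolarization (Lam : AddSubgroup W) (ψ : W →ₗ[ℝ] W →ₗ[ℝ] ℝ) : Prop where
  alt : ∀ v, ψ v v = 0
  int : ∀ v ∈ Lam, ∀ w ∈ Lam, ∃ n : ℤ, ψ v w = n
  inv : ∀ v w, ψ (Complex.I • v) (Complex.I • w) = ψ v w
  pos : ∀ v, v ≠ 0 → 0 < ψ v (Complex.I • v)

/-- the lattice `Lam^k` in `W^k` (so `W^k ⧸ Lam^k` is the power `A^k` of `A = W ⧸ Lam`) -/
def powLat (k : ℕ) (Lam : AddSubgroup W) : AddSubgroup (Fin k → W) where
  carrier := {w | ∀ i, w i ∈ Lam}
  zero_mem' := fun _ => Lam.zero_mem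
  add_mem' := fun ha hb i => Lam.add_mem (ha i) (hb i)
  neg_mem' := fun ha i => Lam.neg_mem (ha i)

/-- `T` acting on every component of `W^k` -/
def powMap (k : ℕ) (T : W →ₗ[ℝ] W) : (Fin k → W) →ₗ[ℝ] (Fin k → W) :=
  LinearMap.pi fun i => T ∘ₗ LinearMap.proj i

/-- The Hodge group of the polarised abelian variety `(W ⧸ Lam, ψ)` (real points): real linear
automorphisms of `W` which preserve `ψ` and all Hodge classes of all degrees on all powers. -/
def hodgeGroup (Lam : AddSubgroup W) (ψ : W →ₗ[ℝ] W →ₗ[ℝ] ℝ) : Set (W ≃ₗ[ℝ] W) :=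
  {T | (∀ v w, ψ (T v) (T w) = ψ v w) ∧ ∀ (k a : ℕ)
    (ξ : ((Fin k → W) [⋀^Fin (2 * a)]→ₗ[ℝ] ℝ) →ₗ[ℝ] ℝ), IsHodge (powLat k Lam) ξ →
      ∀ η, ξ (η.compLinearMap (powMap k T.toLinearMap)) = ξ η}

/-- THE THEOREM. `A = W ⧸ Lam` any abelian variety with polarization `ψ`, `G` its Hodge group, `T₀ ∈ G`, `ε > 0`.
There is `T ∈ G` with `|T - T₀| < ε` such that `A_T = W ⧸ T(Lam)` (polarised by `ψ`) is of CM type and every Hodge
class of every degree on every power of `A` is a Hodge class on the same power of `A_T` and is there a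
`ℚ`-linear combination of classes of holomorphic maps of compact ball quotients. -/
def DensityAll_stmt : Prop :=
  ∀ (W : Type) [NormedAddCommGroup W] [NormedSpace ℂ W] [FiniteDimensional ℂ W]
    (Lam : AddSubgroup W) (ψ : W →ₗ[ℝ] W →ₗ[ℝ] ℝ), IsLattice Lam → IsPolarization Lam ψ →
  ∀ T₀ ∈ hodgeGroup Lam ψ, ∀ ε > 0, ∃ T ∈ hodgeGroup Lam ψ, (∀ w, ‖T w - T₀ w‖ ≤ ε * ‖w‖) ∧
    IsPolarization (Lam.map (T : W →+ W)) ψ ∧ Nonempty (CMData W (Lam.map (T : W →+ W))) ∧
    ∀ (k a : ℕ) (ξ : ((Fin k → W) [⋀^Fin (2 * a)]→ₗ[ℝ] ℝ) →ₗ[ℝ] ℝ), IsHodge (powLat k Lam) ξ →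
      IsHodge (powLat k (Lam.map (T : W →+ W))) ξ ∧
      ∃ (n : ℕ) (q : Fin n → ℚ) (M : Fin n → BallQuotient a)
        (f : Fin n → (Fin a → ℂ) → (Fin k → W)),
        (∀ i, IsMap (M i) (powLat k (Lam.map (T : W →+ W))) (f i)) ∧
        ∀ η, ξ η = ∑ i, (q i : ℝ) * cls (M i) (f i) η

/-! ## Auxiliary definitions (for the proof) -/

/-- the action of an endomorphism on forms as a derivation -/
def der {V : Type} [AddCommGroup V] [Module ℝ V] {n : ℕ} (X : V →ₗ[ℝ] V)
    (η : V [⋀^Fin n]→ₗ[ℝ] ℝ) : V [⋀^Fin n]→ₗ[ℝ] ℝ where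
  toFun v := ∑ j, η (Function.update v j (X (v j)))
  map_update_add' := by
    intro inst v i x y
    obtain rfl : inst = instDecidableEqFin n := Subsingleton.elim _ _
    rw [← Finset.sum_add_distrib]
    refine Finset.sum_congr rfl fun j _ => ?_
    by_cases hj : j = i
    · subst hj
      simp
    · have h1 : ∀ z : V, Function.update (Function.update v i z) j (X (v j)) =
          Function.update (Function.update v j (X (v j))) i z := fun z =>
        Function.update_comm (Ne.symm hj) z (X (v j)) v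
      rw [Function.update_of_ne hj, Function.update_of_ne hj, Function.update_of_ne hj,
        h1, h1, h1, AlternatingMap.map_update_add]
  map_update_smul' := by
    intro inst v i c x
    obtain rfl : inst = instDecidableEqFin n := Subsingleton.elim _ _
    rw [Finset.smul_sum]
    refine Finset.sum_congr rfl fun j _ => ?_
    by_cases hj : j = i
    · subst hj
      simp
    · have h1 : ∀ z : V, Function.update (Function.update v i z) j (X (v j)) =
          Function.update (Function.update v j (X (v j))) i z := fun z =>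
        Function.update_comm (Ne.symm hj) z (X (v j)) v
      rw [Function.update_of_ne hj, Function.update_of_ne hj, h1, h1,
        AlternatingMap.map_update_smul]
  map_eq_zero_of_eq' := by
    intro v i i' hv hi
    have h0 : ∀ j, j ≠ i → j ≠ i' → η (Function.update v j (X (v j))) = 0 := by
      intro j hj hj'
      refine η.map_eq_zero_of_eq _ ?_ hi
      rw [Function.update_of_ne (Ne.symm hj), Function.update_of_ne (Ne.symm hj'), hv]
    have h1 : ∑ j, η (Function.update v j (X (v j))) =
        ∑ j ∈ {i, i'}, η (Function.update v j (X (v j))) := by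
      symm
      apply Finset.sum_subset (Finset.subset_univ _)
      intro j _ hj
      simp only [Finset.mem_insert, Finset.mem_singleton, not_or] at hj
      exact h0 j hj.1 hj.2
    rw [h1, Finset.sum_pair hi]
    have h2 : Function.update v i' (X (v i')) =
        (Function.update v i (X (v i))) ∘ (Equiv.swap i i') := by
      funext j
      by_cases hj : j = i'
      · subst hj
        simp [hv]
      · by_cases hj' : j = i
        · subst hj'
          simp [Function.update_of_ne hi, Function.update_of_ne (Ne.symm hi), hv]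
        · simp [Function.update_of_ne hj, Function.update_of_ne hj',
            Equiv.swap_apply_of_ne_of_ne hj' hj]
    rw [h2, AlternatingMap.map_swap _ _ hi]
    simp

theorem der_apply {V : Type} [AddCommGroup V] [Module ℝ V] {n : ℕ} (X : V →ₗ[ℝ] V)
    (η : V [⋀^Fin n]→ₗ[ℝ] ℝ) (v : Fin n → V) :
    der X η v = ∑ j, η (Function.update v j (X (v j))) := rfl

theorem powMap_apply (k : ℕ) (T : W →ₗ[ℝ] W) (w : Fin k → W) (i : Fin k) :
    powMap k T w i = T (w i) := rfl

/-- multiplication by `i` as a real endomorphism -/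
def JJ (W : Type) [NormedAddCommGroup W] [NormedSpace ℂ W] : W →L[ℝ] W :=
  (Complex.I • ContinuousLinearMap.id ℂ W).restrictScalars ℝ

theorem JJ_apply (w : W) : JJ W w = Complex.I • w := rfl

/-- endomorphism of `W` rational with respect to the lattice -/
def RatEnd (Lam : AddSubgroup W) (X : W →L[ℝ] W) : Prop :=
  ∀ v ∈ Lam, ∃ n : ℕ, n ≠ 0 ∧ n • X v ∈ Lam

/-- the rational span of a lattice -/
def ratSpan (Lam : AddSubgroup W) : AddSubgroup W where
  carrier := {w | ∃ n : ℕ, n ≠ 0 ∧ n • w ∈ Lam}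
  zero_mem' := ⟨1, one_ne_zero, by simp⟩
  add_mem' := by
    rintro a b ⟨n, hn, ha⟩ ⟨m, hm, hb⟩
    refine ⟨n * m, mul_ne_zero hn hm, ?_⟩
    rw [smul_add]
    refine Lam.add_mem ?_ ?_
    · rw [mul_comm, mul_smul]
      exact Lam.nsmul_mem ha m
    · rw [mul_smul]
      exact Lam.nsmul_mem hb n
  neg_mem' := by
    rintro a ⟨n, hn, ha⟩
    exact ⟨n, hn, by rw [smul_neg]; exact Lam.neg_mem ha⟩

/-- the Lie algebra of the Hodge group: endomorphisms which kill `ψ` and all Hodge classes on all powers -/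
def lieAlg (Lam : AddSubgroup W) (ψ : W →ₗ[ℝ] W →ₗ[ℝ] ℝ) : Submodule ℝ (W →L[ℝ] W) where
  carrier := {X | (∀ v w, ψ (X v) w + ψ v (X w) = 0) ∧ ∀ (k a : ℕ)
    (ξ : ((Fin k → W) [⋀^Fin (2 * a)]→ₗ[ℝ] ℝ) →ₗ[ℝ] ℝ), IsHodge (powLat k Lam) ξ →
      ∀ η, ξ (der (powMap k (X : W →ₗ[ℝ] W)) η) = 0}
  zero_mem' := by
    refine ⟨fun v w => by simp, fun k a ξ _ η => ?_⟩
    have h : der (powMap k ((0 : W →L[ℝ] W) : W →ₗ[ℝ] W)) η = 0 := by
      ext v
      rw [der_apply]
      apply Finset.sum_eq_zero
      intro j _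
      exact η.map_coord_zero j (by simp [powMap]; rfl)
    rw [h, map_zero]
  add_mem' := by
    rintro X Y ⟨hX, hX'⟩ ⟨hY, hY'⟩
    refine ⟨fun v w => ?_, fun k a ξ h η => ?_⟩
    · have h1 := hX v w
      have h2 := hY v w
      simp only [_root_.add_apply, map_add, LinearMap.add_apply]
      linarith
    · have h3 : der (powMap k ((X + Y : W →L[ℝ] W) : W →ₗ[ℝ] W)) η =
          der (powMap k (X : W →ₗ[ℝ] W)) η + der (powMap k (Y : W →ₗ[ℝ] W)) η := by
        ext v
        rw [AlternatingMap.add_apply, der_apply, der_apply, der_apply, ← Finset.sum_add_distrib]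
        refine Finset.sum_congr rfl fun j _ => ?_
        rw [← AlternatingMap.map_update_add]
        rfl
      rw [h3, map_add, hX' k a ξ h η, hY' k a ξ h η, add_zero]
  smul_mem' := by
    rintro c X ⟨hX, hX'⟩
    refine ⟨fun v w => ?_, fun k a ξ h η => ?_⟩
    · have h1 := hX v w
      simp only [_root_.smul_apply, map_smul, LinearMap.smul_apply, smul_eq_mul]
      rw [← mul_add, h1, mul_zero]
    · have h3 : der (powMap k ((c • X : W →L[ℝ] W) : W →ₗ[ℝ] W)) η =
          c • der (powMap k (X : W →ₗ[ℝ] W)) η := by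
        ext v
        rw [AlternatingMap.smul_apply, der_apply, der_apply, Finset.smul_sum]
        refine Finset.sum_congr rfl fun j _ => ?_
        rw [← AlternatingMap.map_update_smul]
        rfl
      rw [h3, map_smul, hX' k a ξ h η, smul_zero]

end

end Pool.Agent.HC.DT
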