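import Pool.Agent.helper34.DT.Defs
import Pool.Agent.helper54.HC.TSpec

/-!
# Density theorem (project DT): specification (helper34)

Goal: `HodgeCM_stmt` (proved) implies `DensityAll_stmt`. Every `XX_stmt : Prop` is a module `dt:XX`.
File `Pool/Agent/<you>/DT/XX.lean`, `import Pool.Agent.helper34.DT.Spec`, namespace `Pool.Agent.HC.DT`,
`theorem XX (h : YY_stmt) ... : XX_stmt`; any other statement of this file (and `TA5_stmt`, `TA6_stmt` of
helper54's TSpec, both proved) may be a hypothesis, except circularly; auxiliary lemmas are prefixed `XX_`.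

Plan. `g = lieAlg Lam ψ` is a real Lie algebra given by rational linear equations and contains `J = i`. A rational
`X ∈ g` near `J` is `exp(Y) Z exp(-Y)`, `Y, Z ∈ g` small resp. near `J`, `Z J = J Z` (implicit function theorem:
`[g, J] + g^J = g`). `T = exp(-Y)` fixes all Hodge classes, so they are Hodge classes of `W ⧸ T(Lam)`; `Z = T X T⁻¹` is
`ℂ`-linear and rational for `T(Lam)`, skew for `ψ`, `ψ(v, Z v) > 0`: so `W ⧸ T(Lam)` has CM by the field factors of `ℚ[Z]`.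
-/

namespace Pool.Agent.HC.DT

open Pool.Agent.HC
open scoped ComplexConjugate

noncomputable section

/-! ## A. Forms, classes, rationality -/

/-- AE: every functional on forms is a combination of evaluations at tuples of elements of a
spanning set. A form which vanishes on all tuples in `S` is zero (multilinear extension,
`span S = ⊤`); the space of forms is finite dimensional (it embeds in the multilinear maps), so a separating
set of functionals spans the dual. -/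
def AE_stmt : Prop := ∀ (V : Type) [AddCommGroup V] [Module ℝ V] [FiniteDimensional ℝ V]
  (S : Set V), Submodule.span ℝ S = ⊤ → ∀ (n : ℕ) (ξ : (V [⋀^Fin n]→ₗ[ℝ] ℝ) →ₗ[ℝ] ℝ),
  ∃ (m : ℕ) (r : Fin m → ℝ) (v : Fin m → Fin n → V), (∀ i j, v i j ∈ S) ∧
    ∀ η, ξ η = ∑ i, r i * η (v i)

/-- AR: rational forms span all forms (from TA5 and TA6: the forms `det(ℓ_{I_i}(v_j))` are rational). -/
def AR_stmt : Prop := ∀ (V : Type) [NormedAddCommGroup V] [NormedSpace ℂ V] [FiniteDimensional ℂ V]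
  (Lam : AddSubgroup V), IsLattice Lam → ∀ (n : ℕ) (ξ : (V [⋀^Fin n]→ₗ[ℝ] ℝ) →ₗ[ℝ] ℝ),
  (∀ η, IsRat Lam η → ξ η = 0) → ξ = 0

/-- AP: `Lam^k` is a lattice in `W^k` (sup norm; `Pi.single`). -/
def AP_stmt : Prop := ∀ (W : Type) [NormedAddCommGroup W] [NormedSpace ℂ W] [FiniteDimensional ℂ W]
  (Lam : AddSubgroup W), IsLattice Lam → ∀ k : ℕ, IsLattice (powLat k Lam)

/-- AX: every real endomorphism is a real combination of rational ones with coefficients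
linearly independent over `ℚ`. Lattice basis `b`, dual coordinates `ℓ` (TA5); matrix `m_{ij} = ℓ_i(X b_j) ∈ ℝ`; let
`c` be a `ℚ`-basis of the `ℚ`-span of the finitely many `m_{ij}` in `ℝ`, `m_{ij} = ∑_k c_k q_{kij}`, `Y_k b_j = ∑_i q_{kij} b_i`. -/
def AX_stmt : Prop := ∀ (W : Type) [NormedAddCommGroup W] [NormedSpace ℂ W] [FiniteDimensional ℂ W]
  (Lam : AddSubgroup W), IsLattice Lam → ∀ X : W →L[ℝ] W,
  ∃ (m : ℕ) (c : Fin m → ℝ) (Y : Fin m → (W →L[ℝ] W)), LinearIndependent ℚ c ∧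
    (∀ i, RatEnd Lam (Y i)) ∧ X = ∑ i, c i • Y i

/-- AD: the derivation of a rational form by a rational endomorphism is rational. -/
def AD_stmt : Prop := ∀ (W : Type) [NormedAddCommGroup W] [NormedSpace ℂ W]
  (Lam : AddSubgroup W) (X : W →L[ℝ] W), RatEnd Lam X → ∀ (k n : ℕ)
  (η : (Fin k → W) [⋀^Fin n]→ₗ[ℝ] ℝ), IsRat (powLat k Lam) η →
  IsRat (powLat k Lam) (der (powMap k (X : W →ₗ[ℝ] W)) η)

/-- AC: the rational components of an element of the Lie algebra are in the Lie algebra. For a Hodge class `ξ` and a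
rational form `η`: `∑ c_i ξ(der Y_i η) = 0` with `ξ(der Y_i η) ∈ ℚ` (AD), so each is 0 (linear independence);
then AR. Same for `ψ`: on `Lam` the values `ψ(Y_i v, w) + ψ(v, Y_i w)` are rational; extend by bilinearity (span). -/
def AC_stmt : Prop := ∀ (W : Type) [NormedAddCommGroup W] [NormedSpace ℂ W] [FiniteDimensional ℂ W]
  (Lam : AddSubgroup W) (ψ : W →ₗ[ℝ] W →ₗ[ℝ] ℝ), IsLattice Lam → IsPolarization Lam ψ →
  ∀ (m : ℕ) (c : Fin m → ℝ) (Y : Fin m → (W →L[ℝ] W)), LinearIndependent ℚ c →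
  (∀ i, RatEnd Lam (Y i)) → (∑ i, c i • Y i) ∈ lieAlg Lam ψ → ∀ i, Y i ∈ lieAlg Lam ψ

/-- AJ: `i` is in the Lie algebra. `ψ`: from `inv`. Hodge class `ξ = ∑ r_l ev_{v_l}` (AE): differentiate
`ξ(η ∘ rot t) = ∑ r_l η(rot t v_l)` at `t = 0` (`rot t = cos t + sin t J`; or: the multilinear expansion in `cos t`, `sin t`);
note that `rot t` on `W^k` is componentwise. -/
def AJ_stmt : Prop := ∀ (W : Type) [NormedAddCommGroup W] [NormedSpace ℂ W] [FiniteDimensional ℂ W]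
  (Lam : AddSubgroup W) (ψ : W →ₗ[ℝ] W →ₗ[ℝ] ℝ), IsPolarization Lam ψ → JJ W ∈ lieAlg Lam ψ

/-- AN: rational elements of the Lie algebra near `J`. AX, AJ, AC give `J = ∑ c_i Y_i`; approximate the `c_i`
by rationals. -/
def AN_stmt : Prop := ∀ (W : Type) [NormedAddCommGroup W] [NormedSpace ℂ W] [FiniteDimensional ℂ W]
  (Lam : AddSubgroup W) (ψ : W →ₗ[ℝ] W →ₗ[ℝ] ℝ), IsLattice Lam → IsPolarization Lam ψ →
  ∀ δ > 0, ∃ X ∈ lieAlg Lam ψ, RatEnd Lam X ∧ ‖X - JJ W‖ < δ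

/-! ## B. The Lie algebra and the exponential map -/

/-- BX: the exponential of a derivation killing `ξ` fixes `ξ`. `F(t) = ξ(η ∘ exp(tX)) = ∑ r_l η(exp(tX) v_l)` (AE);
`d/dt exp(tX) v = exp(tX) X v` (`hasDerivAt_exp_smul_const`), so `F'(t) = ξ(der X (η ∘ exp(tX))) = 0`, `F(1) = F(0)`. -/
def BX_stmt : Prop := ∀ (W : Type) [NormedAddCommGroup W] [NormedSpace ℂ W] [FiniteDimensional ℂ W]
  (X : W →L[ℝ] W) (k n : ℕ) (ξ : ((Fin k → W) [⋀^Fin n]→ₗ[ℝ] ℝ) →ₗ[ℝ] ℝ),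
  (∀ η, ξ (der (powMap k (X : W →ₗ[ℝ] W)) η) = 0) →
  ∀ η, ξ (η.compLinearMap (powMap k ((NormedSpace.exp X : W →L[ℝ] W) : W →ₗ[ℝ] W))) = ξ η

/-- BP: the exponential of a skew endomorphism preserves `ψ` (same argument). -/
def BP_stmt : Prop := ∀ (W : Type) [NormedAddCommGroup W] [NormedSpace ℂ W] [FiniteDimensional ℂ W]
  (ψ : W →ₗ[ℝ] W →ₗ[ℝ] ℝ) (X : W →L[ℝ] W), (∀ v w, ψ (X v) w + ψ v (X w) = 0) →
  ∀ v w, ψ ((NormedSpace.exp X : W →L[ℝ] W) v) ((NormedSpace.exp X : W →L[ℝ] W) w) = ψ v w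

/-- BL: the Lie algebra is closed under brackets. `der X ∘ der Y - der Y ∘ der X = ± der (X Y - Y X)`. -/
def BL_stmt : Prop := ∀ (W : Type) [NormedAddCommGroup W] [NormedSpace ℂ W]
  (Lam : AddSubgroup W) (ψ : W →ₗ[ℝ] W →ₗ[ℝ] ℝ), ∀ X ∈ lieAlg Lam ψ, ∀ Y ∈ lieAlg Lam ψ,
  X * Y - Y * X ∈ lieAlg Lam ψ

/-- BA: the Lie algebra is closed under conjugation by `exp Y`, `Y` in the Lie algebra.
`der (T X T⁻¹) η = (der X (η ∘ T)) ∘ T⁻¹`; `exp(-Y)` is the inverse of `exp Y`. Uses BX, BP. -/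
def BA_stmt : Prop := ∀ (W : Type) [NormedAddCommGroup W] [NormedSpace ℂ W] [FiniteDimensional ℂ W]
  (Lam : AddSubgroup W) (ψ : W →ₗ[ℝ] W →ₗ[ℝ] ℝ), ∀ Y ∈ lieAlg Lam ψ, ∀ X ∈ lieAlg Lam ψ,
  (NormedSpace.exp Y * X * NormedSpace.exp (-Y) : W →L[ℝ] W) ∈ lieAlg Lam ψ

/-- BI: implicit function theorem. `A` a finite dimensional real normed algebra, `J² = -1`, `g` a
subspace containing `J`, closed under brackets and under conjugation by `exp Y`, `Y ∈ g`. The map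
`(Y, Z) ↦ exp(Y) Z exp(-Y)` from `g × {Z ∈ g | Z J = J Z}` to `g` (complete spaces, as submodules) has strict derivative
`(Y, Z) ↦ Y J - J Y + Z` at `(0, J)`; it is onto: for `U ∈ g`, `-J U J = exp((π/2) J) U exp(-(π/2) J) ∈ g`, so
`U' = (U - J U J)/2 ∈ g` commutes with `J`, `U'' = U - U' ∈ g` anticommutes with `J`, and `U'' = [Y, J]`,
`Y = -(U'' J)/2 = -[U'', J]/4 ∈ g`. (`exp(tJ) = cos t + J sin t`.) Use `HasStrictFDerivAt.map_nhds_eq_of_surj` and continuity of `exp` at 0. -/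
def BI_stmt : Prop := ∀ (A : Type) [NormedRing A] [NormedAlgebra ℝ A] [FiniteDimensional ℝ A]
  (g : Submodule ℝ A) (J : A), J * J = -1 → J ∈ g → (∀ X ∈ g, ∀ Y ∈ g, X * Y - Y * X ∈ g) →
  (∀ Y ∈ g, ∀ X ∈ g, NormedSpace.exp Y * X * NormedSpace.exp (-Y) ∈ g) →
  ∀ ε > 0, ∃ δ > 0, ∀ X ∈ g, ‖X - J‖ < δ → ∃ Y ∈ g, ∃ Z ∈ g, Z * J = J * Z ∧
    ‖NormedSpace.exp (-Y) - 1‖ < ε ∧ ‖Z - J‖ < ε ∧
    X = NormedSpace.exp Y * Z * NormedSpace.exp (-Y)

/-- BZ: positivity is an open condition (`ψ(v, i v) ≥ c |v|²` by compactness of the unit sphere, `|ψ(v, w)| ≤ C |v| |w|`). -/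
def BZ_stmt : Prop := ∀ (W : Type) [NormedAddCommGroup W] [NormedSpace ℂ W] [FiniteDimensional ℂ W]
  (Lam : AddSubgroup W) (ψ : W →ₗ[ℝ] W →ₗ[ℝ] ℝ), IsPolarization Lam ψ →
  ∃ ε > 0, ∀ Z : W →L[ℝ] W, ‖Z - JJ W‖ < ε → ∀ v, v ≠ 0 → 0 < ψ v (Z v)

/-! ## C. Complex multiplication -/

/-- CE: eigenvalues of `Z` are `i λ`, `λ > 0`. `Z v = (x + i y) v`: `ψ(v, Z v) = y ψ(v, i v)`; skewness at `(v, i v)` gives
`2 x ψ(v, i v) = 0`. -/
def CE_stmt : Prop := ∀ (W : Type) [NormedAddCommGroup W] [NormedSpace ℂ W]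
  (Lam : AddSubgroup W) (ψ : W →ₗ[ℝ] W →ₗ[ℝ] ℝ), IsPolarization Lam ψ → ∀ Z : W →ₗ[ℂ] W,
  (∀ v w, ψ (Z v) w + ψ v (Z w) = 0) → (∀ v, v ≠ 0 → 0 < ψ v (Z v)) →
  ∀ (μ : ℂ) (v : W), v ≠ 0 → Z v = μ • v → μ.re = 0 ∧ 0 < μ.im

/-- CU: real eigenfunctionals. `u = u₁ + u₂`, `u₁(v) = (u(v) - i u(i v))/2` complex linear, `u₂` antilinear, both are
eigenfunctionals of `Z` for `ν`; a nonzero complex linear eigenfunctional with eigenvalue `μ` gives an
eigenvector with eigenvalue `μ` (`Z - μ` is not onto, so not injective); for `u₂` apply this to `conj ∘ u₂` and `conj ν`. -/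
def CU_stmt : Prop := ∀ (W : Type) [NormedAddCommGroup W] [NormedSpace ℂ W] [FiniteDimensional ℂ W]
  (Z : W →ₗ[ℂ] W), (∀ (μ : ℂ) (v : W), v ≠ 0 → Z v = μ • v → μ.re = 0 ∧ 0 < μ.im) →
  ∀ (u : W →ₗ[ℝ] ℂ) (ν : ℂ), u ≠ 0 → (∀ v, u (Z v) = ν * u v) →
  ν.re = 0 ∧ ν.im ≠ 0 ∧ (0 < ν.im → ∀ (c : ℂ) (v : W), u (c • v) = c * u v)

/-- CX: additive maps on the rational span extend uniquely to real linear maps (lattice basis TA5; `n • w ∈ Lam`,
`n u(w) = u(n w)`). -/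
def CX_stmt : Prop := ∀ (W : Type) [NormedAddCommGroup W] [NormedSpace ℂ W] [FiniteDimensional ℂ W]
  (Lam : AddSubgroup W), IsLattice Lam → ∀ g : ratSpan Lam →+ ℂ,
  ∃ u : W →ₗ[ℝ] ℂ, ∀ v : ratSpan Lam, u (v : W) = g v

/-- CS: semisimple endomorphisms of rational vector spaces: `V` is a direct sum of simple
`ℚ[X]`-modules (`IsSemisimpleModule.exists_linearEquiv_fin_dfinsupp` for `Module.AEval'`), each `≅ ℚ[X]/(p)` = a number field
generated by the image `α` of `X`. -/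
def CS_stmt : Prop := ∀ (V : Type) [AddCommGroup V] [Module ℚ V] [FiniteDimensional ℚ V]
  (Z : Module.End ℚ V), Z.IsSemisimple →
  ∃ (r : ℕ) (K : Fin r → Type) (_ : ∀ j, Field (K j)) (_ : ∀ j, NumberField (K j))
    (α : ∀ j, K j) (x : V ≃+ (∀ j, K j)), (∀ v j, x (Z v) j = α j * x v j) ∧
    ∀ j, Algebra.adjoin ℚ {α j} = ⊤

/-- CD: decomposition of the rational span. `Z` acts on `ratSpan Lam` (a `ℚ`-vector space of dimension `2 dim W`),
semisimply: the orthogonal of an invariant subspace for the rational positive definite form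
`ψ(v, Z w)` is an invariant complement. Then CS. -/
def CD_stmt : Prop := ∀ (W : Type) [NormedAddCommGroup W] [NormedSpace ℂ W] [FiniteDimensional ℂ W]
  (Lam : AddSubgroup W) (ψ : W →ₗ[ℝ] W →ₗ[ℝ] ℝ), IsLattice Lam → IsPolarization Lam ψ →
  ∀ Z : W →L[ℝ] W, RatEnd Lam Z → (∀ v w, ψ (Z v) w + ψ v (Z w) = 0) →
  (∀ v, v ≠ 0 → 0 < ψ v (Z v)) →
  ∃ (r : ℕ) (K : Fin r → Type) (_ : ∀ j, Field (K j)) (_ : ∀ j, NumberField (K j))
    (α : ∀ j, K j) (x : ratSpan Lam ≃+ (∀ j, K j)),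
    (∀ v v' : ratSpan Lam, (v' : W) = Z v → ∀ j, x v' j = α j * x v j) ∧
    ∀ j, Algebra.adjoin ℚ {α j} = ⊤

/-- CK: a number field generated by an element all of whose conjugates are nonzero and purely
imaginary is a CM field (`ℚ(α²)` is totally real, `α` generates a quadratic extension of it, no real
embedding). -/
def CK_stmt : Prop := ∀ (K : Type) [Field K] [NumberField K] (α : K),
  Algebra.adjoin ℚ {α} = ⊤ → (∀ φ : K →+* ℂ, (φ α).re = 0 ∧ (φ α).im ≠ 0) →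
  NumberField.IsCMField K ∧ IsCMType {φ : K →+* ℂ | 0 < (φ α).im}

/-- CP: the image of `∏ K_j` spans `∏ ℂ^Φ_j` over `ℝ`. A real functional on `∏ ℂ^Φ_j` is
`z ↦ ∑ Re(c_φ z_φ)`; if it vanishes on `∏ K_j`, all `c_φ = 0` by independence of the embeddings `φ`, `conj φ` (Dedekind). -/
def CP_stmt : Prop := ∀ (r : ℕ) (K : Fin r → Type) [∀ j, Field (K j)] [∀ j, NumberField (K j)]
  (Φ : ∀ j, Set (K j →+* ℂ)), (∀ j, IsCMType (Φ j)) →
  Submodule.span ℝ {z : ∀ j, Φ j → ℂ | ∃ x : ∀ j, K j, ∀ (j : Fin r) (φ : Φ j),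
    z j φ = (φ : K j →+* ℂ) (x j)} = ⊤

/-- CC: CM data from `Z`. With CD, every `ν = φ(α_j)` has the eigenfunctional extending `v ↦ φ(x(v)_j)` (CX; the relation
`u(Z v) = ν u(v)` holds on `ratSpan Lam`, which spans), so `α_j` satisfies the hypothesis of CK (CU, CE); for
`φ ∈ Φ_j = {0 < Im φ(α_j)}` the functional is complex linear: they give `e : W → ∏ ℂ^Φ_j`, complex linear, onto by
CP, injective by dimension (`dim_ℝ W = dim_ℚ ratSpan = ∑ [K_j : ℚ] = 2 ∑ |Φ_j|`). Uses CD, CE, CU, CX, CK, CP. -/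
def CC_stmt : Prop := ∀ (W : Type) [NormedAddCommGroup W] [NormedSpace ℂ W] [FiniteDimensional ℂ W]
  (Lam : AddSubgroup W) (ψ : W →ₗ[ℝ] W →ₗ[ℝ] ℝ), IsLattice Lam → IsPolarization Lam ψ →
  ∀ Z : W →L[ℝ] W, Z * JJ W = JJ W * Z → RatEnd Lam Z → (∀ v w, ψ (Z v) w + ψ v (Z w) = 0) →
  (∀ v, v ≠ 0 → 0 < ψ v (Z v)) → Nonempty (CMData W Lam)

/-- CQ: powers of CM tori are CM tori (`r' = k r`, `K'` = `K ∘ (finProdFinEquiv.symm ·).2`). -/
def CQ_stmt : Prop := ∀ (W : Type) [NormedAddCommGroup W] [NormedSpace ℂ W] [FiniteDimensional ℂ W]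
  (Lam : AddSubgroup W), Nonempty (CMData W Lam) → ∀ k : ℕ, Nonempty (CMData (Fin k → W) (powLat k Lam))

/-! ## D. Transport and assembly -/

/-- DL: transport of the lattice. -/
def DL_stmt : Prop := ∀ (W : Type) [NormedAddCommGroup W] [NormedSpace ℂ W] [FiniteDimensional ℂ W]
  (Lam : AddSubgroup W) (ψ : W →ₗ[ℝ] W →ₗ[ℝ] ℝ), IsLattice Lam → IsPolarization Lam ψ →
  ∀ T ∈ hodgeGroup Lam ψ, IsLattice (Lam.map (T : W →+ W)) ∧ IsPolarization (Lam.map (T : W →+ W)) ψ ∧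
    ∀ (k a : ℕ) (ξ : ((Fin k → W) [⋀^Fin (2 * a)]→ₗ[ℝ] ℝ) →ₗ[ℝ] ℝ), IsHodge (powLat k Lam) ξ →
      IsHodge (powLat k (Lam.map (T : W →+ W))) ξ

/-- DB: the basic statement: `T` near 1 in the Hodge group with `W ⧸ T(Lam)` of CM type. `ε₁` from BZ, `δ` from BI
(with `min ε ε₁`, `g = lieAlg`, BL, BA, AJ), `X` from AN, `T = exp(-Y)` (inverse `exp Y`), in the Hodge group by BX, BP;
`Z = T X T⁻¹` is rational for `T(Lam)`; CC for `T(Lam)` (DL). -/
def DB_stmt : Prop := ∀ (W : Type) [NormedAddCommGroup W] [NormedSpace ℂ W] [FiniteDimensional ℂ W]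
  (Lam : AddSubgroup W) (ψ : W →ₗ[ℝ] W →ₗ[ℝ] ℝ), IsLattice Lam → IsPolarization Lam ψ →
  ∀ ε > 0, ∃ T ∈ hodgeGroup Lam ψ, (∀ w, ‖T w - w‖ ≤ ε * ‖w‖) ∧
    Nonempty (CMData W (Lam.map (T : W →+ W)))

/-- DF: final. Apply DB to `T₀(Lam)` (DL; `T₀` fixes the Hodge classes of `Lam`, which are Hodge classes for
`T₀(Lam)`, so an element of the Hodge group of `T₀(Lam)` times `T₀` is in that of `Lam`), then `HodgeCM_stmt` for the powers
(AP, CQ, DL). -/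
def DF_stmt : Prop := HodgeCM_stmt → DensityAll_stmt

end

end Pool.Agent.HC.DT
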